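import Mathlib
import Pool.Agent.H.MP_1e50ba_an.B
import Pool.Agent.Lib.helper18.Brouwer

namespace Pool.Agent.Results.MP_1e50ba_an.Cantor

open Set Filter Topology Pool.Agent.H.MP_1e50ba_an

/-- The achievement set of a sequence indexed by the positive integers. -/
def Ach (a : ℕ → ℝ) : Set ℝ :=
  {s | ∃ A : Set ℕ, (∀ n ∈ A, 1 ≤ n) ∧ HasSum (A.indicator a) s}

theorem ach_eq : Ach (fun n => if Even n then 1 / (2 ^ n + 1) else 1 / 2 ^ n) = range F := by
  classical
  have hx : ∀ i : ℕ, (if Even (i + 1) then 1 / (2 ^ (i + 1) + 1) else 1 / 2 ^ (i + 1) : ℝ) = x i := by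
    intro i; unfold x d
    simp only [Nat.even_add_one, Nat.not_even_iff_odd]
    rw [div_pow, one_pow]
    split_ifs
    · field_simp; ring
    · ring
  ext s
  constructor
  · rintro ⟨A, hA, hs⟩
    refine ⟨fun i => decide (i + 1 ∈ A), ?_⟩
    have h0 : (0:ℕ) ∉ A := fun h => by have := hA 0 h; omega
    have h1 := (hasSum_nat_add_iff' 1).2 hs
    rw [Finset.sum_range_one, indicator_of_notMem h0, sub_zero] at h1
    refine ((summ _).hasSum.unique ?_)
    have h2 : (fun i => if decide (i + 1 ∈ A) = true then x i else 0) = fun n =>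
        A.indicator (fun n => (if Even n then 1 / (2 ^ n + 1) else 1 / 2 ^ n : ℝ)) (n + 1) := by
      ext i
      by_cases h : i + 1 ∈ A
      · rw [indicator_of_mem h, hx]; simp [h]
      · rw [indicator_of_notMem h]; simp [h]
    rw [h2]; exact h1
  · rintro ⟨e, rfl⟩
    refine ⟨{n | 1 ≤ n ∧ e (n - 1) = true}, fun n hn => hn.1, ?_⟩
    refine (hasSum_nat_add_iff' 1).1 ?_
    rw [Finset.sum_range_one, indicator_of_notMem (by simp), sub_zero]
    have h2 : (fun i => if e i = true then x i else 0) = fun n =>
        {n | 1 ≤ n ∧ e (n - 1) = true}.indicator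
          (fun n => (if Even n then 1 / (2 ^ n + 1) else 1 / 2 ^ n : ℝ)) (n + 1) := by
      ext i
      by_cases h : e i = true
      · rw [indicator_of_mem (by simpa using h), hx]; simp [h]
      · rw [indicator_of_notMem (by simpa using h)]; simp [h]
    rw [← h2]; exact (summ e).hasSum

theorem result :
    Nonempty (Ach (fun n => if Even n then 1 / (2 ^ n + 1) else 1 / 2 ^ n) ≃ₜ cantorSet) := by
  rw [ach_eq]
  refine Pool.Agent.Lib.helper18.Brouwer.brouwer_cantorSet
    ⟨⟨(isCompact_range F_cont).isClosed, ?_⟩, range_nonempty _, isCompact_range F_cont,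
      interior_empty⟩
  rintro _ ⟨e, rfl⟩
  rw [accPt_iff_nhds]
  intro U hU
  have h1 : Tendsto (fun n => Function.update e n (!e n)) atTop (𝓝 e) := by
    rw [tendsto_pi_nhds]
    intro i
    refine tendsto_const_nhds.congr' ?_
    filter_upwards [eventually_gt_atTop i] with n hn
    rw [Function.update_of_ne hn.ne]
  obtain ⟨n, hn⟩ := ((F_cont.tendsto e).comp h1).eventually hU |>.exists
  refine ⟨F (Function.update e n (!e n)), ⟨hn, mem_range_self _⟩, fun h => ?_⟩
  have h2 := ((summ (Function.update e n (!e n))).hasSum.sub (summ e).hasSum)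
  have h3 := hasSum_single (f := fun i => (if Function.update e n (!e n) i then x i else 0) -
    (if e i then x i else 0)) n (fun i hi => by rw [Function.update_of_ne hi, sub_self])
  have h4 := h2.unique h3
  have h5 : F (Function.update e n (!e n)) - F e = 0 := sub_eq_zero.2 h
  have h6 := x_pos n
  unfold F at h5
  rw [h5, Function.update_self] at h4
  cases he : e n <;> simp [he] at h4 <;> linarith

end Pool.Agent.Results.MP_1e50ba_an.Cantor
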